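import Mathlib
import Pool.Agent.H560.SQ.StmB
import Pool.Agent.H996.Par.Low
import Pool.Agent.H97.SI.T2

/-!
# Tuples with square differences near squares, `q` even (helper560): statements of the parts

The shifts are `τ i ^ 2`: all `F + τ i ^ 2` have the same derivative `s ^ 2`.
-/

set_option autoImplicit false

namespace Pool.Agent.H560.SK

open Polynomial
open scoped Classical
open Pool.Agent.H985.Chow (mob)
open Pool.Agent.H985.Par (Sft)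
open Pool.Agent.H694.Typ (Mn Irn PU)
open Pool.Agent.H560.SI (Smt Itv)
open Pool.Agent.H996.Par (Om)
open Pool.Agent.H97.SI (Tn)

/-- The tuple `τ` is admissible. -/
def Adm {K : Type} [Field K] {k : ℕ} (τ : Fin k → K[X]) : Prop :=
  ∀ P : K[X], P.Monic → Irreducible P → ∃ x : K[X], ∀ i, ¬ P ∣ x + τ i

/-- The density of the sifted set. -/
noncomputable def VK {K : Type} [Field K] [Fintype K] {k : ℕ} (τ : Fin k → K[X]) (z : ℕ) : ℝ :=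
  ∏ P ∈ PU K z, (1 - ((Om τ P).card : ℝ) / (Fintype.card K : ℝ) ^ P.natDegree)

/-- **Task WBU.**  The window bound for all forms. -/
def S_wbU : Prop :=
  ∀ (K : Type) [Field K] [Fintype K] [CharP K 2] (k : ℕ) (lam : ℝ), 1 ≤ k → 0 < lam →
    ∃ κ c : ℝ, 0 < κ ∧ 0 < c ∧ ∃ n₀ : ℕ, ∀ n : ℕ, n₀ ≤ n → ∀ (d L L' : ℕ) (γ : K) (s F D : K[X])
      (τ : Fin k → K[X]), L ≤ s.natDegree + 1 → s.natDegree < d → 2 * s.natDegree ≤ n →
      lam * n ≤ (L : ℝ) → γ ≠ 0 → s.Monic → Squarefree s → Smt (L / 8) s → F.Monic →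
      F.natDegree = 2 * d → derivative F = (C γ * s) ^ 2 → D.Monic → (D.natDegree : ℝ) ≤ κ * n →
      D.natDegree + L' = L → Function.Injective τ → (∀ i, ((τ i).natDegree : ℝ) ≤ κ * n) →
      |∑ᶠ v ∈ {v : K[X] | v.degree < (L' : WithBot ℕ)},
        ∏ i, (mob (F + τ i ^ 2 + (D * v) ^ 2) : ℝ)| ≤ (Fintype.card K : ℝ) ^ ((L : ℝ) - c * n)

/-- **Task WBS.**  The window bound for all subsets of the forms. -/
def S_wbS : Prop :=
  ∀ (K : Type) [Field K] [Fintype K] [CharP K 2] (k : ℕ) (lam : ℝ), 0 < lam →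
    ∃ κ c : ℝ, 0 < κ ∧ 0 < c ∧ ∃ n₀ : ℕ, ∀ n : ℕ, n₀ ≤ n → ∀ (d L L' : ℕ) (γ : K) (s F D : K[X])
      (τ : Fin k → K[X]) (I : Finset (Fin k)), L ≤ s.natDegree + 1 → s.natDegree < d →
      2 * s.natDegree ≤ n → lam * n ≤ (L : ℝ) → γ ≠ 0 → s.Monic → Squarefree s → Smt (L / 8) s →
      F.Monic → F.natDegree = 2 * d → derivative F = (C γ * s) ^ 2 → D.Monic →
      (D.natDegree : ℝ) ≤ κ * n → D.natDegree + L' = L → Function.Injective τ →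
      (∀ i, ((τ i).natDegree : ℝ) ≤ κ * n) → I.Nonempty →
      |∑ᶠ v ∈ {v : K[X] | v.degree < (L' : WithBot ℕ)},
        ∏ i ∈ I, (mob (F + τ i ^ 2 + (D * v) ^ 2) : ℝ)| ≤ (Fintype.card K : ℝ) ^ ((L : ℝ) - c * n)

/-- **Task WINS.**  Tuples with given parities in one window. -/
def S_winS : Prop :=
  ∀ (K : Type) [Field K] [Fintype K] [CharP K 2] (k : ℕ), ∃ A : ℕ,
    ∀ (m L N z : ℕ) (τ : Fin k → K[X]) (s F : K[X]) (B : ℝ) (σ : Fin k → ℤ),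
      2 * L ≤ m + 1 → 1 ≤ z → A * z ≤ L → 16 * z ≤ L → (∀ i, (τ i).natDegree < L) → Adm τ →
      s ≠ 0 → s.natDegree ≤ N → Smt (L / 8) s → F.Monic → F.natDegree = m →
      derivative F = s ^ 2 → 0 ≤ B →
      (∀ (F' D : K[X]) (L' : ℕ) (I : Finset (Fin k)), F'.Monic → F'.natDegree = m →
        derivative F' = s ^ 2 → I.Nonempty → D.Monic → D.natDegree ≤ A * z →
        D.natDegree + L' = L →
        |∑ᶠ v ∈ {v : K[X] | v.degree < (L' : WithBot ℕ)},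
          ∏ i ∈ I, (mob (F' + τ i ^ 2 + (D * v) ^ 2) : ℝ)| ≤ B) →
      2 * ((k + 1 : ℝ) * Fintype.card K) ^ (A * z) * B ≤
        1 / (8 * 2 ^ k) * VK τ z * (Fintype.card K : ℝ) ^ L →
      (k : ℝ) * N * (Fintype.card K : ℝ) ^ (L - z) ≤
        1 / (8 * 2 ^ k) * VK τ z * (Fintype.card K : ℝ) ^ L →
      (∀ i, σ i = 1 ∨ σ i = -1) →
      1 / (4 * 2 ^ k) * VK τ z * (Fintype.card K : ℝ) ^ L ≤
        ((Tn K L).filter (fun t => ∀ i, mob (F + τ i ^ 2 + t ^ 2) = σ i ∧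
          Sft z (F + τ i ^ 2 + t ^ 2))).card

/-- **Task T2HS.**  Tuples of almost primes with given parities from a window bound; the scale is `n`,
the degree is `m`. -/
def S_t2HS : Prop :=
  ∀ (K : Type) [Field K] [Fintype K] [CharP K 2] (k : ℕ) (lam κ₀ c₀ : ℝ), 0 < lam → 0 < κ₀ →
    0 < c₀ → ∃ κ c : ℝ, 0 < κ ∧ 0 < c ∧ ∃ n₀ : ℕ, ∀ n : ℕ, n₀ ≤ n →
      ∀ (m L : ℕ) (τ : Fin k → K[X]) (A G : Finset K[X]) (σ : Fin k → ℤ), lam * n ≤ (L : ℝ) →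
      L ≤ n → 2 * L ≤ m + 1 → (∀ i, (τ i).natDegree < L) → Adm τ →
      (∀ s ∈ A, s ≠ 0 ∧ s.natDegree ≤ n ∧ Squarefree s ∧ Smt (L / 8) s ∧
        (∃ F : K[X], F.Monic ∧ F.natDegree = m ∧ derivative F = s ^ 2 ∧
          ∀ t : K[X], t.degree < (L : WithBot ℕ) → F + t ^ 2 ∈ G) ∧
        ∀ F : K[X], F.Monic → F.natDegree = m → derivative F = s ^ 2 →
          ∀ (D : K[X]) (L' : ℕ) (I : Finset (Fin k)), I.Nonempty → D.Monic →
          (D.natDegree : ℝ) ≤ κ₀ * n → D.natDegree + L' = L →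
          |∑ᶠ v ∈ {v : K[X] | v.degree < (L' : WithBot ℕ)},
            ∏ i ∈ I, (mob (F + τ i ^ 2 + (D * v) ^ 2) : ℝ)| ≤
            (Fintype.card K : ℝ) ^ ((L : ℝ) - c₀ * n)) →
      (∀ i, σ i = 1 ∨ σ i = -1) →
      c * A.card * (Fintype.card K : ℝ) ^ L / (n : ℝ) ^ k ≤
        (G.filter (fun f => ∀ i, mob (f + τ i ^ 2) = σ i ∧ Sft ⌊κ * n⌋₊ (f + τ i ^ 2))).card

/-- **Task T2KS.**  Tuples with square differences in all intervals near squares. -/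
def S_t2KS : Prop :=
  ∀ (K : Type) [Field K] [Fintype K] [CharP K 2] (k : ℕ) (ε : ℝ), 0 < ε →
    ∃ κ c : ℝ, 0 < κ ∧ 0 < c ∧ ∃ h₀ : ℕ, ∀ h : ℕ, h₀ ≤ h → ∀ (A R : K[X]) (τ : Fin k → K[X])
      (σ : Fin k → ℤ), A.Monic → h ≤ 2 * A.natDegree →
      R.degree < ((2 * A.natDegree : ℕ) : WithBot ℕ) → (R.natDegree : ℝ) ≤ (2 - ε) * h →
      Function.Injective τ → (∀ i, ((τ i).natDegree : ℝ) ≤ κ * h) → Adm τ →
      (∀ i, σ i = 1 ∨ σ i = -1) →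
      c * (Fintype.card K : ℝ) ^ h / (h : ℝ) ^ k ≤
        ((Itv K (2 * A.natDegree) h (A ^ 2 + R)).filter
          (fun f => ∀ i, mob (f + τ i ^ 2) = σ i ∧ Sft ⌊κ * h⌋₊ (f + τ i ^ 2))).card

end Pool.Agent.H560.SK
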