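import Mathlib
import Pool.Agent.H560.SK.StmK

/-!
# Tuples with square differences, odd degree, `q` even (helper560): statements of the parts
-/

set_option autoImplicit false

namespace Pool.Agent.H560.SK

open Polynomial
open scoped Classical
open Pool.Agent.H985.Chow (mob)
open Pool.Agent.H985.Par (Sft)
open Pool.Agent.H560.SI (Smt Itv)

/-- the window bound with given constants, odd degree -/
def BdO (K : Type) [Field K] [Fintype K] (lam κ c : ℝ) (n₀ k : ℕ) : Prop :=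
  ∀ n : ℕ, n₀ ≤ n → ∀ (N L L' : ℕ) (s F D : K[X]) (τ : Fin k → K[X]), n = 2 * N + 1 → L ≤ N →
    lam * n ≤ (L : ℝ) → s.Monic → s.natDegree = N → Squarefree s → Smt (L / 8) s → F.Monic →
    F.natDegree = n → derivative F = s ^ 2 → D.Monic → (D.natDegree : ℝ) ≤ κ * n →
    D.natDegree + L' = L → Function.Injective τ → (∀ i, ((τ i).natDegree : ℝ) ≤ κ * n) →
    |∑ᶠ v ∈ {v : K[X] | v.degree < (L' : WithBot ℕ)},
      ∏ i, (mob (F + τ i ^ 2 + (D * v) ^ 2) : ℝ)| ≤ (Fintype.card K : ℝ) ^ ((L : ℝ) - c * n)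

/-- **Task WBO.**  The window bound for all forms, odd degree. -/
def S_wbO : Prop :=
  ∀ (K : Type) [Field K] [Fintype K] [CharP K 2] (k : ℕ) (lam : ℝ), 1 ≤ k → 0 < lam →
    ∃ κ c : ℝ, 0 < κ ∧ 0 < c ∧ ∃ n₀ : ℕ, BdO K lam κ c n₀ k

/-- **Task WBOS.**  The window bound for all subsets of the forms, odd degree. -/
def S_wbOS : Prop :=
  ∀ (K : Type) [Field K] [Fintype K] [CharP K 2] (k : ℕ) (lam : ℝ), 0 < lam →
    ∃ κ c : ℝ, 0 < κ ∧ 0 < c ∧ ∃ n₀ : ℕ, ∀ n : ℕ, n₀ ≤ n → ∀ (N L L' : ℕ) (s F D : K[X])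
      (τ : Fin k → K[X]) (I : Finset (Fin k)), n = 2 * N + 1 → L ≤ N → lam * n ≤ (L : ℝ) →
      s.Monic → s.natDegree = N → Squarefree s → Smt (L / 8) s → F.Monic → F.natDegree = n →
      derivative F = s ^ 2 → D.Monic → (D.natDegree : ℝ) ≤ κ * n → D.natDegree + L' = L →
      Function.Injective τ → (∀ i, ((τ i).natDegree : ℝ) ≤ κ * n) → I.Nonempty →
      |∑ᶠ v ∈ {v : K[X] | v.degree < (L' : WithBot ℕ)},
        ∏ i ∈ I, (mob (F + τ i ^ 2 + (D * v) ^ 2) : ℝ)| ≤ (Fintype.card K : ℝ) ^ ((L : ℝ) - c * n)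

/-- **Task T2KO.**  Tuples with square differences in all intervals of exponent `> 1 / 2`, odd degree. -/
def S_t2KO : Prop :=
  ∀ (K : Type) [Field K] [Fintype K] [CharP K 2] (k : ℕ) (θ : ℝ), 1 / 2 < θ →
    ∃ κ c : ℝ, 0 < κ ∧ 0 < c ∧ ∃ n₀ : ℕ, ∀ n N h : ℕ, n₀ ≤ n → n = 2 * N + 1 → θ * n ≤ (h : ℝ) →
      h ≤ n → ∀ (g : K[X]) (τ : Fin k → K[X]) (σ : Fin k → ℤ), g.Monic → g.natDegree = n →
      Function.Injective τ → (∀ i, ((τ i).natDegree : ℝ) ≤ κ * n) → Adm τ →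
      (∀ i, σ i = 1 ∨ σ i = -1) →
      c * (Fintype.card K : ℝ) ^ h / (n : ℝ) ^ k ≤
        ((Itv K n h g).filter
          (fun f => ∀ i, mob (f + τ i ^ 2) = σ i ∧ Sft ⌊κ * n⌋₊ (f + τ i ^ 2))).card

end Pool.Agent.H560.SK
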