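import Mathlib
import Pool.Agent.H560.SK.StmK
import Pool.Agent.H560.SQ.T2K

/-!
# SK, task T2KS: tuples with square differences in all intervals near squares (helper560)
-/

set_option autoImplicit false

namespace Pool.Agent.H560.SK

open Polynomial
open scoped Classical
open Pool.Agent.H985.Chow (mob)
open Pool.Agent.H985.Par (Sft)
open Pool.Agent.H694.Typ (Mn Irn PU mem_Mn)
open Pool.Agent.H560.SI (Smt SmI Itv Prs S_smA)
open Pool.Agent.H249.SI (dq dq_sq dq_dec deriv_sq deriv_G sq_inj')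
open Pool.Agent.H560.SQ (data deg_sq_lt deg_X_sq_lt mem_itv)

lemma sft_mono {K : Type} [Field K] {a b : ℕ} {f : K[X]} (hab : a ≤ b) (h : Sft b f) : Sft a f :=
  fun P h1 h2 h3 => lt_of_le_of_lt hab (h P h1 h2 h3)

/-- **Task T2KS.** -/
theorem t2KS (hw : S_wbS) (ht : S_t2HS) (hs : S_smA) : S_t2KS := by
  intro K _ _ _ k ε₀ hε₀
  obtain ⟨ε, hε, hε1, hεε⟩ : ∃ ε : ℝ, 0 < ε ∧ ε ≤ 1 ∧ ε ≤ ε₀ :=
    ⟨min ε₀ 1, by positivity, min_le_right _ _, min_le_left _ _⟩
  have hq1 : (1 : ℝ) < Fintype.card K := by exact_mod_cast Fintype.one_lt_card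
  have hq0 : (0 : ℝ) < Fintype.card K := by linarith
  obtain ⟨lam, hlamd⟩ : ∃ lam : ℝ, lam = 1 / 12 := ⟨_, rfl⟩
  have hlam : 0 < lam := by rw [hlamd]; norm_num
  obtain ⟨κ₀, c₀, hκ₀, hc₀, n₁, hw1⟩ := hw K k lam hlam
  obtain ⟨c₁, hc₁, n₂, hd1⟩ := data hs K lam ε hlam hε hε1
  obtain ⟨κ, c, hκ, hc, n₃, ht1⟩ := ht K k lam κ₀ c₀ hlam hκ₀ hc₀
  obtain ⟨κf, hκf0, hκf1, hκf2, hκf3⟩ : ∃ κf : ℝ, 0 < κf ∧ κf ≤ 4 * κ ∧ κf ≤ 4 * κ₀ ∧ κf ≤ 1 / 4 :=
    ⟨min (4 * κ) (min (4 * κ₀) (1 / 4)), by positivity, min_le_left _ _,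
      (min_le_right _ _).trans (min_le_left _ _), (min_le_right _ _).trans (min_le_right _ _)⟩
  refine ⟨κf, c * c₁ / (4 ^ k * Fintype.card K), hκf0, by positivity, n₁ + n₂ + n₃ + 12, ?_⟩
  intro h hn A R τ σ hA hhn hRn hRh hτi hτd hadm hσ
  obtain ⟨d, hd⟩ : ∃ d, d = A.natDegree := ⟨_, rfl⟩
  obtain ⟨L, hL⟩ : ∃ L, L = h / 2 := ⟨_, rfl⟩
  obtain ⟨n, hn4⟩ : ∃ n, n = 4 * h := ⟨_, rfl⟩
  have hh0 : (0 : ℝ) < h := by exact_mod_cast (by omega : 0 < h)
  have hn0 : (0 : ℝ) < n := by exact_mod_cast (by omega : 0 < n)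
  have hn4r : (n : ℝ) = 4 * h := by exact_mod_cast hn4
  have h2L : h ≤ 2 * L + 1 := by omega
  have h2Lr : (h : ℝ) ≤ 2 * L + 1 := by exact_mod_cast h2L
  have hLn : lam * n ≤ (L : ℝ) := by
    have h1 : n ≤ 12 * L := by omega
    have h2 : (n : ℝ) ≤ 12 * L := by exact_mod_cast h1
    rw [hlamd]
    linarith
  obtain ⟨F₀, hF₀⟩ : ∃ F₀, F₀ = A ^ 2 + R := ⟨_, rfl⟩
  have hA2 : (A ^ 2).Monic := hA.pow 2
  have hA2d : (A ^ 2).natDegree = 2 * d := by rw [natDegree_pow, hd]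
  have hRA : R.degree < (A ^ 2).degree := by
    rw [degree_eq_natDegree hA2.ne_zero, hA2d, hd]
    exact hRn
  have hF₀m : F₀.Monic := by
    rw [hF₀]
    exact hA2.add_of_left hRA
  have hF₀d : F₀.natDegree = 2 * d := by
    rw [hF₀, natDegree_add_eq_left_of_degree_lt hRA, hA2d]
  obtain ⟨B, hB⟩ : ∃ B, B = dq F₀ := ⟨_, rfl⟩
  obtain ⟨Z, hZ⟩ := dq_dec F₀
  rw [← hB] at hZ
  have hBR : B ^ 2 = derivative R := by
    rw [hB, dq_sq, hF₀, derivative_add, deriv_sq, zero_add]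
  have hBdeg : B ≠ 0 → 2 * B.natDegree + 1 ≤ R.natDegree := by
    intro hB0
    have h1 : 2 * B.natDegree = (derivative R).natDegree := by rw [← hBR, natDegree_pow]
    have h2 : R.natDegree ≠ 0 := by
      intro h3
      have h4 : derivative R = 0 := derivative_of_natDegree_zero h3
      rw [← hBR] at h4
      exact hB0 (pow_eq_zero_iff two_ne_zero |>.1 h4)
    have h3 := natDegree_derivative_lt h2
    omega
  have hBd : B.degree < (d : WithBot ℕ) := by
    by_cases hB0 : B = 0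
    · rw [hB0, degree_zero]
      exact WithBot.bot_lt_coe _
    · have h1 := hBdeg hB0
      have hR0 : R ≠ 0 := by
        intro h2
        rw [h2, natDegree_zero] at h1
        omega
      rw [degree_eq_natDegree hR0] at hRn
      have h2 : R.natDegree < 2 * A.natDegree := by exact_mod_cast hRn
      rw [degree_eq_natDegree hB0]
      exact_mod_cast (by omega : B.natDegree < d)
  have hBL : (B.natDegree : ℝ) ≤ (2 - ε) * L + 1 := by
    by_cases hB0 : B = 0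
    · rw [hB0, natDegree_zero, Nat.cast_zero]
      have : (0 : ℝ) ≤ (L : ℝ) := Nat.cast_nonneg _
      nlinarith
    · have h1 : 2 * (B.natDegree : ℝ) + 1 ≤ R.natDegree := by exact_mod_cast hBdeg hB0
      have h2 : (2 - ε₀) * (h : ℝ) ≤ (2 - ε) * h := by
        apply mul_le_mul_of_nonneg_right (by linarith) (Nat.cast_nonneg _)
      have h3 : (2 - ε) * (h : ℝ) ≤ (2 - ε) * (2 * L + 1) :=
        mul_le_mul_of_nonneg_left h2Lr (by linarith)
      nlinarith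
  obtain ⟨γ, N, H, S, hγ, hLN, hNd, hN2, hsB, hcard⟩ := hd1 n (by omega) d L B hLn (by omega)
    hBd hBL
  obtain ⟨AA, hAA⟩ : ∃ AA : Finset K[X], AA = (SmI K N H (L / 8) S).image (fun s => C γ * s) :=
    ⟨_, rfl⟩
  have hAAc : AA.card = (SmI K N H (L / 8) S).card := by
    rw [hAA]
    apply Finset.card_image_of_injective
    intro x y hxy
    exact mul_left_cancel₀ (C_ne_zero.2 hγ) hxy
  have hτL : ∀ i, (τ i).natDegree < L := by
    intro i
    have h1 := hτd i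
    have h2 : κf * (h : ℝ) ≤ 1 / 4 * h := mul_le_mul_of_nonneg_right hκf3 hh0.le
    have h3 : 4 * ((τ i).natDegree : ℝ) ≤ h := by linarith
    have h4 : 4 * (τ i).natDegree ≤ h := by exact_mod_cast h3
    omega
  have hτκ : ∀ i, ((τ i).natDegree : ℝ) ≤ κ₀ * n := by
    intro i
    have h2 : κf * (h : ℝ) ≤ 4 * κ₀ * h := mul_le_mul_of_nonneg_right hκf2 hh0.le
    have h3 := hτd i
    rw [hn4r]
    linarith
  have hmain := ht1 n (by omega) (2 * d) L τ AA (Itv K (2 * d) h F₀) σ hLn (by omega) (by omega)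
    hτL hadm ?_ hσ
  · have hfl : ⌊κf * (h : ℝ)⌋₊ ≤ ⌊κ * (n : ℝ)⌋₊ := by
      apply Nat.floor_le_floor
      have h2 : κf * (h : ℝ) ≤ 4 * κ * h := mul_le_mul_of_nonneg_right hκf1 hh0.le
      rw [hn4r]
      linarith
    have hsub : ((Itv K (2 * d) h F₀).filter
        (fun f => ∀ i, mob (f + τ i ^ 2) = σ i ∧ Sft ⌊κ * n⌋₊ (f + τ i ^ 2))).card ≤
        ((Itv K (2 * d) h F₀).filter
        (fun f => ∀ i, mob (f + τ i ^ 2) = σ i ∧ Sft ⌊κf * h⌋₊ (f + τ i ^ 2))).card := by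
      apply Finset.card_le_card
      intro f hf
      rw [Finset.mem_filter] at hf ⊢
      exact ⟨hf.1, fun i => ⟨(hf.2 i).1, sft_mono hfl (hf.2 i).2⟩⟩
    have hsubr : (((Itv K (2 * d) h F₀).filter
        (fun f => ∀ i, mob (f + τ i ^ 2) = σ i ∧ Sft ⌊κ * n⌋₊ (f + τ i ^ 2))).card : ℝ) ≤
        ((Itv K (2 * d) h F₀).filter
        (fun f => ∀ i, mob (f + τ i ^ 2) = σ i ∧ Sft ⌊κf * h⌋₊ (f + τ i ^ 2))).card := by
      exact_mod_cast hsub
    rw [← hF₀, ← hd]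
    refine le_trans ?_ (hmain.trans hsubr)
    rw [hAAc, hn4r]
    have h1 : (Fintype.card K : ℝ) ^ h ≤ Fintype.card K * ((Fintype.card K : ℝ) ^ L *
        (Fintype.card K : ℝ) ^ L) := by
      rw [← pow_add, mul_comm, ← pow_succ]
      exact pow_le_pow_right₀ hq1.le (by omega)
    have h2 : c * c₁ / (4 ^ k * Fintype.card K) * (Fintype.card K : ℝ) ^ h ≤
        c * c₁ / (4 ^ k * Fintype.card K) * (Fintype.card K * ((Fintype.card K : ℝ) ^ L *
        (Fintype.card K : ℝ) ^ L)) := mul_le_mul_of_nonneg_left h1 (by positivity)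
    have h3 : c * c₁ / (4 ^ k * Fintype.card K) * (Fintype.card K * ((Fintype.card K : ℝ) ^ L *
        (Fintype.card K : ℝ) ^ L)) = c * (c₁ * (Fintype.card K : ℝ) ^ L) *
        (Fintype.card K : ℝ) ^ L / 4 ^ k := by
      field_simp
    have h4 : c * (c₁ * (Fintype.card K : ℝ) ^ L) * (Fintype.card K : ℝ) ^ L / 4 ^ k ≤
        c * ((SmI K N H (L / 8) S).card : ℝ) * (Fintype.card K : ℝ) ^ L / 4 ^ k := by
      apply div_le_div_of_nonneg_right _ (by positivity)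
      exact mul_le_mul_of_nonneg_right (mul_le_mul_of_nonneg_left hcard hc.le) (by positivity)
    have h5 : c * ((SmI K N H (L / 8) S).card : ℝ) * (Fintype.card K : ℝ) ^ L / (4 * (h : ℝ)) ^ k =
        c * ((SmI K N H (L / 8) S).card : ℝ) * (Fintype.card K : ℝ) ^ L / 4 ^ k / (h : ℝ) ^ k := by
      rw [div_div, mul_pow]
    rw [h5]
    apply div_le_div_of_nonneg_right _ (by positivity)
    rw [h3] at h2
    exact h2.trans h4
  · intro s' hs'
    rw [hAA, Finset.mem_image] at hs'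
    obtain ⟨s, hsm, rfl⟩ := hs'
    unfold SmI at hsm
    rw [Finset.mem_filter, mem_Mn] at hsm
    obtain ⟨⟨hs1, hsN⟩, hsS, hsq, hsmt⟩ := hsm
    have hunit : IsUnit (C γ : K[X]) := isUnit_C.2 (isUnit_iff_ne_zero.2 hγ)
    refine ⟨mul_ne_zero (C_ne_zero.2 hγ) hs1.ne_zero, ?_, ?_, ?_, ?_, ?_⟩
    · rw [natDegree_C_mul hγ, hsN]
      omega
    · exact hsq.squarefree_of_dvd ((hunit.mul_left_dvd).2 dvd_rfl)
    · intro P hP1 hP2 hP3
      exact hsmt P hP1 hP2 ((hunit.dvd_mul_left).1 hP3)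
    · refine ⟨Z ^ 2 + X * (C γ * s) ^ 2, ?_⟩
      have hdl := hsB s hs1 hsN hsS
      have e1 : Z ^ 2 + X * (C γ * s) ^ 2 = F₀ + X * (C γ * s - B) ^ 2 := by
        rw [hZ, CharTwo.sub_eq_add, CharTwo.add_sq]
        have h2 : (2 : K[X]) = 0 := CharTwo.two_eq_zero
        linear_combination (- X * B ^ 2) * h2
      have e2 := deg_X_sq_lt hdl (show 2 * L ≤ h by omega)
      have e3 : ∀ t : K[X], t.degree < (L : WithBot ℕ) →
          (X * (C γ * s - B) ^ 2 + t ^ 2).degree < (h : WithBot ℕ) := by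
        intro t ht
        refine (degree_add_le _ _).trans_lt (max_lt e2 ?_)
        exact deg_sq_lt ht (by omega)
      have e4 := mem_itv hF₀m hF₀d (show h ≤ 2 * d by omega) e2
      rw [← e1] at e4
      unfold Itv at e4
      rw [Finset.mem_filter, mem_Mn] at e4
      refine ⟨e4.1.1, e4.1.2, ?_, ?_⟩
      · rw [deriv_G]
      · intro t ht
        rw [e1, add_assoc]
        exact mem_itv hF₀m hF₀d (by omega) (e3 t ht)
    · intro F hF hFn hder D L' I hI hD hDd hDL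
      exact hw1 n (by omega) d L L' γ s F D τ I (by omega) (by omega) (by omega) hLn hγ hs1 hsq hsmt
        hF hFn hder hD hDd hDL hτi hτκ hI

end Pool.Agent.H560.SK
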