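import Mathlib
import Pool.Agent.H560.SK.StmO
import Pool.Agent.H560.SK.T2KS

/-!
# SK, odd degree: subsets of the forms, tuples with square differences in all intervals of exponent
`> 1 / 2` (helper560)
-/

set_option autoImplicit false

namespace Pool.Agent.H560.SK

open Polynomial
open scoped Classical
open Pool.Agent.H985.Chow (mob)
open Pool.Agent.H985.Par (Sft)
open Pool.Agent.H694.Typ (Mn Irn PU mem_Mn)
open Pool.Agent.H560.SI (Smt SmI Itv Prs S_smA)
open Pool.Agent.H249.SI (dq dq_sq dq_dec deriv_sq deriv_G sq_inj')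
open Pool.Agent.H560.SQ (smOne deg_sq_lt deg_X_sq_lt mem_itv)

lemma BdO_mono (K : Type) [Field K] [Fintype K] {lam κ c κ' c' : ℝ} {n₀ n₀' k : ℕ}
    (h : BdO K lam κ c n₀ k) (hκ : κ' ≤ κ) (hc : c' ≤ c) (hn : n₀ ≤ n₀') : BdO K lam κ' c' n₀' k := by
  have hq1 : (1 : ℝ) ≤ Fintype.card K := by exact_mod_cast Fintype.one_lt_card.le
  intro n hn' N L L' s F D τ h1 h2 h3 h4 h5 h6 h7 h8 h9 h10 h11 h12 h13 h14 h15
  have hn0 : (0 : ℝ) ≤ n := Nat.cast_nonneg n
  have e1 : κ' * (n : ℝ) ≤ κ * n := mul_le_mul_of_nonneg_right hκ hn0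
  refine (h n (hn.trans hn') N L L' s F D τ h1 h2 h3 h4 h5 h6 h7 h8 h9 h10 h11
    (h12.trans e1) h13 h14 fun i => (h15 i).trans e1).trans ?_
  apply Real.rpow_le_rpow_of_exponent_le hq1
  have e2 : c' * (n : ℝ) ≤ c * n := mul_le_mul_of_nonneg_right hc hn0
  linarith

/-- **Task WBOS.** -/
theorem wbOS (hU : S_wbO) : S_wbOS := by
  intro K _ _ _ k lam hlam
  have key : ∀ m : ℕ, ∃ κ c : ℝ, 0 < κ ∧ 0 < c ∧ ∃ n₀ : ℕ, ∀ j : ℕ, 1 ≤ j → j ≤ m →
      BdO K lam κ c n₀ j := by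
    intro m
    induction m with
    | zero => exact ⟨1, 1, one_pos, one_pos, 0, fun j h1 h2 => by omega⟩
    | succ m ih =>
      obtain ⟨κ1, c1, hκ1, hc1, n1, H1⟩ := ih
      obtain ⟨κ2, c2, hκ2, hc2, n2, H2⟩ := hU K (m + 1) lam (by omega) hlam
      refine ⟨min κ1 κ2, min c1 c2, lt_min hκ1 hκ2, lt_min hc1 hc2, max n1 n2, ?_⟩
      intro j hj1 hj2
      rcases Nat.lt_or_ge m j with h3 | h3
      · have h4 : j = m + 1 := by omega
        subst h4
        exact BdO_mono K H2 (min_le_right _ _) (min_le_right _ _) (le_max_right _ _)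
      · exact BdO_mono K (H1 j hj1 h3) (min_le_left _ _) (min_le_left _ _) (le_max_left _ _)
  obtain ⟨κ, c, hκ, hc, n₀, H⟩ := key k
  refine ⟨κ, c, hκ, hc, n₀, ?_⟩
  intro n hn N L L' s F D τ I h1 h2 h3 h4 h5 h6 h7 h8 h9 h10 h11 h12 h13 h14 h15 hI
  have hc1 : 1 ≤ I.card := Finset.card_pos.2 hI
  have hc2 : I.card ≤ k := by
    have := Finset.card_le_univ I
    rwa [Fintype.card_fin] at this
  have h17 := H I.card hc1 hc2 n hn N L L' s F D (fun x => τ (I.equivFin.symm x : Fin k)) h1 h2 h3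
    h4 h5 h6 h7 h8 h9 h10 h11 h12 h13 (fun x y hxy => by
      have h18 := h14 hxy
      exact I.equivFin.symm.injective (Subtype.ext h18)) (fun i => h15 _)
  refine le_trans (le_of_eq ?_) h17
  congr 1
  refine finsum_mem_congr rfl fun v _ => ?_
  rw [← Finset.prod_coe_sort I (fun i => (mob (F + τ i ^ 2 + (D * v) ^ 2) : ℝ))]
  exact (Equiv.prod_comp I.equivFin.symm
    (fun i : I => (mob (F + τ (i : Fin k) ^ 2 + (D * v) ^ 2) : ℝ))).symm

/-- **Task T2KO.** -/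
theorem t2KO (hw : S_wbOS) (ht : S_t2HS) (hs : S_smA) : S_t2KO := by
  intro K _ _ _ k θ₀ hθ₀
  obtain ⟨θ, hθ, hθ1, hθθ⟩ : ∃ θ : ℝ, 1 / 2 < θ ∧ θ ≤ 1 ∧ θ ≤ θ₀ :=
    ⟨min θ₀ 1, lt_min hθ₀ (by norm_num), min_le_right _ _, min_le_left _ _⟩
  have hq1 : (1 : ℝ) < Fintype.card K := by exact_mod_cast Fintype.one_lt_card
  have hq0 : (0 : ℝ) < Fintype.card K := by linarith
  obtain ⟨lam, hlamd⟩ : ∃ lam : ℝ, lam = 1 / 8 := ⟨_, rfl⟩
  have hlam : 0 < lam := by rw [hlamd]; norm_num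
  obtain ⟨δ, hδ⟩ : ∃ δ : ℝ, δ = θ - 1 / 2 := ⟨_, rfl⟩
  have hδ0 : 0 < δ := by rw [hδ]; linarith
  obtain ⟨κ₀, c₀, hκ₀, hc₀, n₁, hw1⟩ := hw K k lam hlam
  obtain ⟨c₁, hc₁, n₂, hd1⟩ := smOne hs K (1 / 64) δ (by norm_num) hδ0
  obtain ⟨κ, c, hκ, hc, n₃, ht1⟩ := ht K k lam κ₀ c₀ hlam hκ₀ hc₀
  obtain ⟨κf, hκf0, hκf1, hκf2, hκf3⟩ : ∃ κf : ℝ, 0 < κf ∧ κf ≤ κ ∧ κf ≤ κ₀ ∧ κf ≤ 1 / 16 :=
    ⟨min κ (min κ₀ (1 / 16)), by positivity, min_le_left _ _,
      (min_le_right _ _).trans (min_le_left _ _), (min_le_right _ _).trans (min_le_right _ _)⟩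
  obtain ⟨n₄, hn₄⟩ := exists_nat_gt (2 / δ)
  refine ⟨κf, c * c₁ / Fintype.card K, hκf0, by positivity, n₁ + 3 * n₂ + n₃ + 3 * n₄ + 100, ?_⟩
  intro n N h hn hnN hθh hhn g τ σ hg hgn hτi hτd hadm hσ
  obtain ⟨L, hL⟩ : ∃ L, L = h / 2 := ⟨_, rfl⟩
  have hn0 : (0 : ℝ) < n := by exact_mod_cast (by omega : 0 < n)
  have hθh' : θ * n ≤ (h : ℝ) := (mul_le_mul_of_nonneg_right hθθ hn0.le).trans hθh
  have hhn2 : n ≤ 2 * h := by
    have h1 : (n : ℝ) ≤ 2 * h := by nlinarith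
    exact_mod_cast h1
  have h2L : h ≤ 2 * L + 1 := by omega
  have hLN : L ≤ N := by omega
  have hLn : lam * n ≤ (L : ℝ) := by
    have h1 : n ≤ 8 * L := by omega
    have h2 : (n : ℝ) ≤ 8 * L := by exact_mod_cast h1
    rw [hlamd]
    linarith
  obtain ⟨B, hB⟩ : ∃ B, B = dq g := ⟨_, rfl⟩
  obtain ⟨Z, hZ⟩ := dq_dec g
  rw [← hB] at hZ
  -- the square root of the derivative is monic of degree `N`
  have hBg : B ^ 2 = derivative g := by rw [hB, dq_sq]
  have hder : (derivative g).Monic ∧ (derivative g).natDegree = 2 * N := by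
    have h1 : (derivative g).coeff (2 * N) = 1 := by
      rw [coeff_derivative, ← hnN, ← hgn, hg.coeff_natDegree, one_mul]
      have h2 : (2 : K) = 0 := CharTwo.two_eq_zero
      push_cast
      rw [h2]
      ring
    have h2 : (derivative g).natDegree ≤ 2 * N := by
      have h3 := natDegree_derivative_le g
      rw [hgn] at h3
      omega
    have h3 : (derivative g).natDegree = 2 * N :=
      le_antisymm h2 (le_natDegree_of_ne_zero (by rw [h1]; exact one_ne_zero))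
    refine ⟨?_, h3⟩
    rw [Monic, leadingCoeff, h3, h1]
  have hBd : B.natDegree = N := by
    have h1 := hder.2
    rw [← hBg, natDegree_pow] at h1
    omega
  have hBm : B.Monic := by
    have h1 : B.leadingCoeff ^ 2 = 1 := by
      rw [← leadingCoeff_pow, hBg]
      exact hder.1
    have h6 : (B.leadingCoeff + 1) ^ 2 = 0 := by
      rw [CharTwo.add_sq, h1, one_pow, CharTwo.add_self_eq_zero]
    have h7 : B.leadingCoeff + 1 = 0 := pow_eq_zero_iff (two_ne_zero) |>.1 h6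
    rwa [CharTwo.add_eq_zero] at h7
  have hcard := hd1 N (by omega) L (L / 8) B (by
    have h1 : (n : ℝ) = 2 * N + 1 := by exact_mod_cast hnN
    have h3 : (h : ℝ) ≤ 2 * L + 1 := by exact_mod_cast h2L
    have h4 : 1 ≤ δ * N := by
      have h5 : (n₄ : ℝ) ≤ N := by exact_mod_cast (by omega : n₄ ≤ N)
      have h6 : 2 / δ < N := hn₄.trans_le h5
      rw [div_lt_iff₀ hδ0] at h6
      linarith
    have h7 : θ = δ + 1 / 2 := by rw [hδ]; ring
    rw [h1, h7] at hθh'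
    nlinarith) hLN (by
    have h1 : N ≤ 64 * (L / 8) := by omega
    have h2 : (N : ℝ) ≤ 64 * ((L / 8 : ℕ) : ℝ) := by exact_mod_cast h1
    linarith) hBm hBd
  have hτL : ∀ i, (τ i).natDegree < L := by
    intro i
    have h1 := hτd i
    have h2 : κf * (n : ℝ) ≤ 1 / 16 * n := mul_le_mul_of_nonneg_right hκf3 hn0.le
    have h3 : 16 * ((τ i).natDegree : ℝ) ≤ n := by linarith
    have h4 : 16 * (τ i).natDegree ≤ n := by exact_mod_cast h3
    omega
  have hτκ : ∀ i, ((τ i).natDegree : ℝ) ≤ κ₀ * n := by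
    intro i
    exact (hτd i).trans (mul_le_mul_of_nonneg_right hκf2 hn0.le)
  have hmain := ht1 n (by omega) n L τ (SmI K N L (L / 8) B) (Itv K n h g) σ hLn (by omega)
    (by omega) hτL hadm ?_ hσ
  · have hfl : ⌊κf * (n : ℝ)⌋₊ ≤ ⌊κ * (n : ℝ)⌋₊ :=
      Nat.floor_le_floor (mul_le_mul_of_nonneg_right hκf1 hn0.le)
    have hsub : ((Itv K n h g).filter
        (fun f => ∀ i, mob (f + τ i ^ 2) = σ i ∧ Sft ⌊κ * n⌋₊ (f + τ i ^ 2))).card ≤
        ((Itv K n h g).filter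
        (fun f => ∀ i, mob (f + τ i ^ 2) = σ i ∧ Sft ⌊κf * n⌋₊ (f + τ i ^ 2))).card := by
      apply Finset.card_le_card
      intro f hf
      rw [Finset.mem_filter] at hf ⊢
      exact ⟨hf.1, fun i => ⟨(hf.2 i).1, sft_mono hfl (hf.2 i).2⟩⟩
    have hsubr : (((Itv K n h g).filter
        (fun f => ∀ i, mob (f + τ i ^ 2) = σ i ∧ Sft ⌊κ * n⌋₊ (f + τ i ^ 2))).card : ℝ) ≤
        ((Itv K n h g).filter
        (fun f => ∀ i, mob (f + τ i ^ 2) = σ i ∧ Sft ⌊κf * n⌋₊ (f + τ i ^ 2))).card := by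
      exact_mod_cast hsub
    refine le_trans ?_ (hmain.trans hsubr)
    apply div_le_div_of_nonneg_right _ (by positivity)
    have h1 : (Fintype.card K : ℝ) ^ h ≤ Fintype.card K * ((Fintype.card K : ℝ) ^ L *
        (Fintype.card K : ℝ) ^ L) := by
      rw [← pow_add, mul_comm, ← pow_succ]
      exact pow_le_pow_right₀ hq1.le (by omega)
    have h2 : c * c₁ / Fintype.card K * (Fintype.card K : ℝ) ^ h ≤
        c * c₁ / Fintype.card K * (Fintype.card K * ((Fintype.card K : ℝ) ^ L *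
        (Fintype.card K : ℝ) ^ L)) := mul_le_mul_of_nonneg_left h1 (by positivity)
    have h3 : c * c₁ / Fintype.card K * (Fintype.card K * ((Fintype.card K : ℝ) ^ L *
        (Fintype.card K : ℝ) ^ L)) = c * (c₁ * (Fintype.card K : ℝ) ^ L) *
        (Fintype.card K : ℝ) ^ L := by
      field_simp
    rw [h3] at h2
    refine h2.trans ?_
    exact mul_le_mul_of_nonneg_right (mul_le_mul_of_nonneg_left hcard hc.le) (by positivity)
  · intro s hsm
    unfold SmI at hsm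
    rw [Finset.mem_filter, mem_Mn] at hsm
    obtain ⟨⟨hs1, hsN⟩, hsS, hsq, hsmt⟩ := hsm
    refine ⟨hs1.ne_zero, by omega, hsq, hsmt, ?_, ?_⟩
    · refine ⟨Z ^ 2 + X * s ^ 2, ?_⟩
      have e1 : Z ^ 2 + X * s ^ 2 = g + X * (s - B) ^ 2 := by
        conv_rhs => rw [hZ]
        rw [CharTwo.sub_eq_add, CharTwo.add_sq]
        have h2 : (2 : K[X]) = 0 := CharTwo.two_eq_zero
        linear_combination (- X * B ^ 2) * h2
      have e2 := deg_X_sq_lt hsS (show 2 * L ≤ h by omega)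
      have e3 : ∀ t : K[X], t.degree < (L : WithBot ℕ) →
          (X * (s - B) ^ 2 + t ^ 2).degree < (h : WithBot ℕ) := by
        intro t ht
        refine (degree_add_le _ _).trans_lt (max_lt e2 ?_)
        exact deg_sq_lt ht (by omega)
      have e4 := mem_itv hg hgn hhn e2
      rw [← e1] at e4
      unfold Itv at e4
      rw [Finset.mem_filter, mem_Mn] at e4
      refine ⟨e4.1.1, e4.1.2, ?_, ?_⟩
      · rw [deriv_G]
      · intro t ht
        rw [e1, add_assoc]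
        exact mem_itv hg hgn hhn (e3 t ht)
    · intro F hF hFn hder D L' I hI hD hDd hDL
      exact hw1 n (by omega) N L L' s F D τ I hnN hLN hLn hs1 hsN hsq hsmt hF hFn hder hD hDd hDL
        hτi hτκ hI

end Pool.Agent.H560.SK
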