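import Mathlib
import Pool.Agent.H560.SK.StmK
import Pool.Agent.H903.SQ.WbI

/-!
# SK, task WBU: the window bound for several forms with square differences (helper560)
-/

set_option autoImplicit false

namespace Pool.Agent.H560.SK

open Polynomial
open scoped Classical
open Pool.Agent.H985.Chow (mob MD)
open Pool.Agent.H985.KP (PA mobg)
open Pool.Agent.H985.Chow.Asm
open Pool.Agent.H604.FC.Asm4
open Pool.Agent.H233.Par
open Pool.Agent.H985.FC (GP)
open Pool.Agent.H604.FC (S_win4)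
open Pool.Agent.H560.SI
open Pool.Agent.H903.SQ (monic_root)
open Pool.Agent.H560.SQ (S_winI)

/-- the product of the differences -/
noncomputable def Dlt {K : Type} [Field K] {k : ℕ} (τ : Fin k → K[X]) : K[X] :=
  ∏ p ∈ (Finset.univ : Finset (Fin k)).offDiag, (τ p.1 - τ p.2)

lemma Dlt_ne {K : Type} [Field K] {k : ℕ} {τ : Fin k → K[X]} (hτ : Function.Injective τ) :
    Dlt τ ≠ 0 := by
  unfold Dlt
  rw [Finset.prod_ne_zero_iff]
  intro p hp
  rw [Finset.mem_offDiag] at hp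
  exact sub_ne_zero.2 fun h => hp.2.2 (hτ h)

lemma dvd_Dlt {K : Type} [Field K] {k : ℕ} (τ : Fin k → K[X]) {i j : Fin k} (hij : i ≠ j) :
    τ i - τ j ∣ Dlt τ := by
  have h1 : (i, j) ∈ (Finset.univ : Finset (Fin k)).offDiag := by
    rw [Finset.mem_offDiag]
    exact ⟨Finset.mem_univ i, Finset.mem_univ j, hij⟩
  have h2 := Finset.dvd_prod_of_mem (fun p : Fin k × Fin k => τ p.1 - τ p.2) h1
  exact h2

lemma Dlt_deg {K : Type} [Field K] {k : ℕ} (τ : Fin k → K[X]) (B : ℝ)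
    (h : ∀ i, ((τ i).natDegree : ℝ) ≤ B) : ((Dlt τ).natDegree : ℝ) ≤ (k : ℝ) ^ 2 * B := by
  rcases Nat.eq_zero_or_pos k with hk | hk
  · subst hk
    unfold Dlt
    rw [Finset.prod_eq_one fun p _ => p.1.elim0]
    simp
  have hB : 0 ≤ B := (Nat.cast_nonneg _).trans (h ⟨0, hk⟩)
  unfold Dlt
  have h1 := natDegree_prod_le (Finset.univ : Finset (Fin k)).offDiag
    (fun p : Fin k × Fin k => τ p.1 - τ p.2)
  have h2 : ((∑ p ∈ (Finset.univ : Finset (Fin k)).offDiag,
      ((fun p : Fin k × Fin k => τ p.1 - τ p.2) p).natDegree : ℕ) : ℝ) ≤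
      ∑ _p ∈ (Finset.univ : Finset (Fin k)).offDiag, B := by
    push_cast
    apply Finset.sum_le_sum
    intro p _
    have h3 := natDegree_sub_le (τ p.1) (τ p.2)
    have h4 : ((τ p.1 - τ p.2).natDegree : ℝ) ≤
        ((max (τ p.1).natDegree (τ p.2).natDegree : ℕ) : ℝ) := by exact_mod_cast h3
    refine h4.trans ?_
    rw [Nat.cast_max]
    exact max_le (h _) (h _)
  have h5 : (((Finset.univ : Finset (Fin k)).offDiag.card : ℕ) : ℝ) ≤ (k : ℝ) ^ 2 := by
    have h6 : (Finset.univ : Finset (Fin k)).offDiag.card ≤ k ^ 2 := by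
      rw [Finset.offDiag_card, Finset.card_univ, Fintype.card_fin, sq]
      exact Nat.sub_le _ _
    exact_mod_cast h6
  rw [Finset.sum_const, nsmul_eq_mul] at h2
  have h7 : (((∏ p ∈ (Finset.univ : Finset (Fin k)).offDiag, (τ p.1 - τ p.2)).natDegree : ℕ) : ℝ) ≤
      ((∑ p ∈ (Finset.univ : Finset (Fin k)).offDiag,
      ((fun p : Fin k × Fin k => τ p.1 - τ p.2) p).natDegree : ℕ) : ℝ) := by exact_mod_cast h1
  exact h7.trans (h2.trans (mul_le_mul_of_nonneg_right h5 hB))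

/-- **Task WBU.** -/
theorem wbU (hgrp : Pool.Agent.H560.SI.S_grp) (hw : S_winI)
    (hwin4 : Pool.Agent.H604.FC.S_win4) : S_wbU := by
  intro K _ _ _ k lam hk1 hlam
  obtain ⟨q, hqdef⟩ : ∃ q : ℝ, q = Fintype.card K := ⟨_, rfl⟩
  have hq1 : (1 : ℝ) < q := by rw [hqdef]; exact_mod_cast Fintype.one_lt_card
  have hq0 : (0 : ℝ) < q := by linarith
  obtain ⟨R, hR⟩ := exists_nat_gt (8 / (7 * lam) + 1)
  obtain ⟨M, hM1, hM⟩ := hwin4 (k * (R + 1)) (R + 1)
  obtain ⟨κ₂, hκ₂⟩ : ∃ κ₂ : ℝ, κ₂ = lam / (8 * (6 * ((R + 1 : ℕ) : ℝ) + 3)) := ⟨_, rfl⟩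
  have hκ₂0 : 0 < κ₂ := by rw [hκ₂]; positivity
  have hr0 : (0 : ℝ) < ((R + 1 : ℕ) : ℝ) := by positivity
  obtain ⟨A, hA1, hA⟩ := omega_bound K M hM1 (q ^ (κ₂ / 2 / ((R + 1 : ℕ) : ℝ)))
    (Real.one_lt_rpow hq1 (by positivity))
  obtain ⟨m1, hm1⟩ := tend (A ^ (R + 1) * q) (q ^ (-(κ₂ / 4))) 1 (by positivity)
    (Real.rpow_lt_one_of_one_lt_of_neg hq1 (by linarith)) one_pos
  obtain ⟨c, hc⟩ : ∃ c : ℝ, c = κ₂ / (4 * 2 ^ (6 * (R + 1) + 1)) := ⟨_, rfl⟩
  have hc0 : 0 < c := by rw [hc]; positivity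
  obtain ⟨m2, hm2⟩ := exists_nat_gt (40 / lam)
  obtain ⟨κ, hκ⟩ : ∃ κ : ℝ, κ = lam / (40 * ((k : ℝ) ^ 2 + 1)) := ⟨_, rfl⟩
  have hκ0 : 0 < κ := by rw [hκ]; positivity
  have hκe : κ * ((k : ℝ) ^ 2 + 1) = lam / 40 := by
    rw [hκ]
    field_simp
  refine ⟨κ, c, hκ0, hc0, m1 + m2 + 1, ?_⟩
  intro n hn d L L' γ s F D τ hLs hsd hsn hL hγ hs hsq hsm hF hFn hder hD hDd hDL hτi hτd
  obtain ⟨Δ, hΔ⟩ : ∃ Δ, Δ = Dlt τ := ⟨_, rfl⟩
  have hΔ0 : Δ ≠ 0 := by rw [hΔ]; exact Dlt_ne hτi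
  have hΔd : (Δ.natDegree : ℝ) ≤ (k : ℝ) ^ 2 * (κ * n) := by rw [hΔ]; exact Dlt_deg τ _ hτd
  have hD0 := hD.ne_zero
  have hn0 : (0 : ℝ) < n := by exact_mod_cast (by omega : 0 < n)
  have hL40 : 40 ≤ L := by
    have h1 : (m2 : ℝ) ≤ n := by exact_mod_cast (by omega : m2 ≤ n)
    have h2 : 40 / lam ≤ n := hm2.le.trans h1
    rw [div_le_iff₀ hlam] at h2
    have h3 : (40 : ℝ) ≤ L := by linarith
    exact_mod_cast h3
  have hDΔ : 40 * ((D.natDegree : ℝ) + Δ.natDegree) ≤ L := by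
    have h1 : (D.natDegree : ℝ) + Δ.natDegree ≤ κ * ((k : ℝ) ^ 2 + 1) * n := by
      have : κ * ((k : ℝ) ^ 2 + 1) * n = κ * n + (k : ℝ) ^ 2 * (κ * n) := by ring
      rw [this]
      exact add_le_add hDd hΔd
    rw [hκe] at h1
    linarith
  have hD40 : 40 * (D.natDegree + Δ.natDegree) ≤ L := by
    exact_mod_cast hDΔ
  have hτ40 : ∀ i, 40 * (τ i).natDegree ≤ L := by
    intro i
    have h1 := hτd i
    have h2 : κ * (n : ℝ) ≤ lam / 40 * n := by
      rw [← hκe]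
      apply mul_le_mul_of_nonneg_right _ hn0.le
      have : (0 : ℝ) ≤ (k : ℝ) ^ 2 := by positivity
      nlinarith
    have h3 : 40 * ((τ i).natDegree : ℝ) ≤ L := by linarith
    exact_mod_cast h3
  obtain ⟨L2, hL2⟩ : ∃ L2, L2 = L' - (4 * D.natDegree + 5 * Δ.natDegree) := ⟨_, rfl⟩
  have hL2L : 5 * D.natDegree + 5 * Δ.natDegree + L2 = L := by omega
  obtain ⟨St, hSt⟩ : ∃ St, St = D ^ 4 * Δ ^ 5 := ⟨_, rfl⟩
  have hSt0 : St ≠ 0 := by
    rw [hSt]
    exact mul_ne_zero (pow_ne_zero _ hD0) (pow_ne_zero _ hΔ0)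
  have hStd : St.natDegree = 4 * D.natDegree + 5 * Δ.natDegree := by
    rw [hSt, natDegree_mul (pow_ne_zero _ hD0) (pow_ne_zero _ hΔ0), natDegree_pow, natDegree_pow]
  have hL28 : 7 * L ≤ 8 * L2 := by omega
  have hL28r : 7 * (L : ℝ) ≤ 8 * L2 := by exact_mod_cast hL28
  -- the splitting of `s`
  obtain ⟨e, h, hse, he, hh, hcop, heD, hhD⟩ := split_gcd (D := D * Δ) hs hsq
  have hed : e.natDegree ≤ D.natDegree + Δ.natDegree := by
    have h1 := natDegree_le_of_dvd heD (mul_ne_zero hD0 hΔ0)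
    rwa [natDegree_mul hD0 hΔ0] at h1
  have hehN : e.natDegree + h.natDegree = s.natDegree := by
    rw [hse, he.natDegree_mul hh]
  have hhs : h ∣ s := by rw [hse]; exact dvd_mul_left _ _
  have hsqh : Squarefree h := hsq.squarefree_of_dvd hhs
  have hsmh : Smt (L / 8) h := fun P hPm hPi hP => hsm P hPm hPi (hP.trans hhs)
  have hRL : 2 * h.natDegree ≤ R * L2 := by
    have h1 : 8 / (7 * lam) < R := by linarith
    rw [div_lt_iff₀ (by positivity)] at h1
    have h2 : 2 * (h.natDegree : ℝ) ≤ n := by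
      have : 2 * h.natDegree ≤ n := by omega
      exact_mod_cast this
    have h3 : (0 : ℝ) ≤ R := Nat.cast_nonneg R
    have h4 : 7 * (lam * n) ≤ 8 * L2 := by linarith
    have h5 : (R : ℝ) * (7 * (lam * n)) ≤ R * (8 * L2) := mul_le_mul_of_nonneg_left h4 h3
    have h6 : 8 * (n : ℝ) ≤ R * (7 * lam) * n := mul_le_mul_of_nonneg_right h1.le hn0.le
    have h7 : 2 * (h.natDegree : ℝ) ≤ R * L2 := by nlinarith
    exact_mod_cast h7
  obtain ⟨p, hpm, hpp, hpd, hp0⟩ := hgrp K L2 R (L / 8) h hh hsqh hsmh (by omega) (by omega) hRL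
  obtain ⟨Z, hZ⟩ := der_snd hder
  have hrd : (X * (C γ * s) ^ 2).degree < ((2 * d : ℕ) : WithBot ℕ) := by
    have h0 : C γ * s ≠ 0 := mul_ne_zero (C_ne_zero.2 hγ) hs.ne_zero
    have h1 : X * (C γ * s) ^ 2 ≠ 0 := mul_ne_zero X_ne_zero (pow_ne_zero 2 h0)
    rw [← natDegree_lt_iff_degree_lt h1, natDegree_X_mul (pow_ne_zero 2 h0), natDegree_pow,
      natDegree_C_mul hγ]
    omega
  obtain ⟨hZm, hZd⟩ := monic_root rfl hF hFn hrd hZ
  -- the average over the windows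
  rw [window_finsum]
  have hmem : ∀ w ∈ degreeLT K L2, St * w ∈ degreeLT K L' := by
    intro w hw
    apply mem_of_natDegree_lt
    by_cases hw0 : w = 0
    · left
      rw [hw0, mul_zero]
    · right
      have h1 := natDegree_lt_of_mem hw hw0
      rw [natDegree_mul hSt0 hw0, hStd]
      omega
  have havg := avg L' L2 St hmem (fun v => ∏ i, (mob (F + τ i ^ 2 + (D * v) ^ 2) : ℝ))
    (q ^ (-(c * n))) ?_
  · refine havg.trans ?_
    rw [← hqdef, ← Real.rpow_natCast, ← Real.rpow_add hq0]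
    apply Real.rpow_le_rpow_of_exponent_le hq1.le
    have h1 : (L' : ℝ) ≤ L := by exact_mod_cast (by omega : L' ≤ L)
    linarith
  intro v hv
  obtain ⟨Z', hZ'⟩ : ∃ Z' : Fin k → K[X], Z' = fun i => Z + (τ i + D * v) := ⟨_, rfl⟩
  obtain ⟨E, hE⟩ : ∃ E, E = (D * Δ) ^ 5 := ⟨_, rfl⟩
  have hE0 : E ≠ 0 := by
    rw [hE]
    exact pow_ne_zero _ (mul_ne_zero hD0 hΔ0)
  have hEd : E.natDegree = 5 * D.natDegree + 5 * Δ.natDegree := by
    rw [hE, natDegree_pow, natDegree_mul hD0 hΔ0, mul_add]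
  have key : ∀ (i : Fin k) (w : K[X]), (Z' i + E * w) ^ 2 + X * (C γ * (e * h)) ^ 2 =
      F + τ i ^ 2 + (D * (v + St * w)) ^ 2 := by
    intro i w
    have h1 : Z' i + E * w = Z + (τ i + D * (v + St * w)) := by
      rw [hZ', hE, hSt]
      ring
    rw [h1, CharTwo.add_sq, CharTwo.add_sq, ← hse, hZ]
    ring
  have hmon : ∀ i, (Z' i).Monic ∧ (Z' i).natDegree = d := by
    intro i
    have h2 : (τ i + D * v).degree < Z.degree := by
      refine (degree_add_le _ _).trans_lt (max_lt ?_ ?_)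
      · by_cases ht0 : τ i = 0
        · rw [ht0, degree_zero]
          exact bot_lt_iff_ne_bot.2 (degree_ne_bot.2 hZm.ne_zero)
        · apply degree_lt_degree
          have h3 := hτ40 i
          rw [hZd]
          omega
      · by_cases hv0 : v = 0
        · rw [hv0, mul_zero, degree_zero]
          exact bot_lt_iff_ne_bot.2 (degree_ne_bot.2 hZm.ne_zero)
        · apply degree_lt_degree
          have h3 := natDegree_lt_of_mem hv hv0
          rw [hD.natDegree_mul' hv0, hZd]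
          omega
    rw [hZ']
    refine ⟨?_, ?_⟩
    · exact hZm.add_of_left h2
    · show (Z + (τ i + D * v)).natDegree = d
      rw [natDegree_add_eq_left_of_degree_lt h2, hZd]
  have hEh : IsCoprime E h := by
    apply cop_of (fun h1 => hE0 h1.1)
    intro P hPm hPi hPE hPh
    rw [hE] at hPE
    exact hhD P hPi hPh (hPi.prime.dvd_of_dvd_pow hPE)
  have hwi : ∀ i : Fin k, ∃ (η : ℝ) (χ : AddChar K[X] ℝ), |η| ≤ 1 ∧
      ∀ w : K[X], w.degree < (L2 : WithBot ℕ) →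
      (mob (F + τ i ^ 2 + (D * (v + St * w)) ^ 2) : ℝ) =
        η * (χ w * ∏ᶠ P ∈ PA h, GP (C γ * (e * h)) 1 P (Z' i + E * w)) := by
    intro i
    obtain ⟨η, χ, hη, -, hηw⟩ := hw K d L2 γ (Z' i) e h E hγ he hh hcop hsqh hE0
      (by rw [hE]; exact pow_dvd_pow_of_dvd heD 5) hEh (by omega)
      (hmon i).1 (hmon i).2 (by
        rw [he.natDegree_mul hh, hehN]
        omega) (by
        rw [he.natDegree_mul hh, hehN, hEd]
        omega)
    refine ⟨η, χ, hη, fun w hw' => ?_⟩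
    rw [← key i w]
    exact hηw w hw'
  choose η χs hη hηw using hwi
  obtain ⟨χ, hχ⟩ : ∃ χ : AddChar K[X] ℝ, χ = ∏ i, χs i := ⟨_, rfl⟩
  -- the local factors
  obtain ⟨f, hf⟩ : ∃ f : K[X] → ℝ,
      f = fun w => χ w * ∏ i, ∏ᶠ P ∈ PA h, GP (C γ * (e * h)) 1 P (Z' i + E * w) :=
    ⟨_, rfl⟩
  have hmobf : ∀ w : degreeLT K L2, ∏ i, (mob (F + τ i ^ 2 + (D * (v + St * (w : K[X]))) ^ 2) : ℝ) =
      (∏ i, η i) * f w := by
    intro w
    rw [hf]
    simp only
    rw [hχ, AddChar.prod_apply, ← Finset.prod_mul_distrib, ← Finset.prod_mul_distrib]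
    exact Finset.prod_congr rfl fun i _ => hηw i w (mem_degreeLT.1 w.2)
  have hη1 : |∏ i, η i| ≤ 1 := by
    rw [Finset.abs_prod]
    exact Finset.prod_le_one (fun i _ => abs_nonneg _) fun i _ => hη i
  have hle : |∑ w : degreeLT K L2, (fun v : K[X] => ∏ i, (mob (F + τ i ^ 2 + (D * v) ^ 2) : ℝ))
      (v + St * (w : K[X]))| ≤ |∑ w : degreeLT K L2, f w| := by
    have h1 : ∑ w : degreeLT K L2, (fun v : K[X] => ∏ i, (mob (F + τ i ^ 2 + (D * v) ^ 2) : ℝ))
        (v + St * (w : K[X])) = (∏ i, η i) * ∑ w : degreeLT K L2, f w := by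
      rw [Finset.mul_sum]
      exact Finset.sum_congr rfl fun w _ => hmobf w
    rw [h1, abs_mul]
    exact mul_le_of_le_one_left (abs_nonneg _) hη1
  refine hle.trans ?_
  obtain ⟨h', hh'⟩ : ∃ h' : Fin (R + 1) → K[X], h' = fun j => if j = 0 then 1 else p j := ⟨_, rfl⟩
  obtain ⟨h'', hh''⟩ : ∃ h'' : Fin (R + 1) → K[X], h'' = fun j => if j = 0 then p j else 1 :=
    ⟨_, rfl⟩
  have hmul : ∀ j, h' j * h'' j = p j := by
    intro j
    rw [hh', hh'']
    by_cases hj : j = 0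
    · simp only [if_pos hj, one_mul]
    · simp only [if_neg hj, mul_one]
  have hpdvd : ∀ j, p j ∣ h := by
    intro j
    rw [← hpp]
    exact Finset.dvd_prod_of_mem _ (Finset.mem_univ j)
  have hwb := hM K L2 (L2 / 4) (L2 / 4 / (6 * (R + 1) + 3)) E (fun _ => C γ * (e * h)) h' h''
    (fun x => Z' (finProdFinEquiv.symm x).1) (fun _ => 1) (fun x => (finProdFinEquiv.symm x).2) 0 χ
    ?_ ?_ ⟨finProdFinEquiv (⟨0, by omega⟩, 0), by rw [Equiv.symm_apply_apply]⟩ ?_ ?_ ?_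
  · simp only [hmul] at hwb
    have h1 : ∀ w : K[X], χ w * ∏ x : Fin (k * (R + 1)), ∏ᶠ P ∈ PA (p (finProdFinEquiv.symm x).2),
        GP (C γ * (e * h)) 1 P (Z' (finProdFinEquiv.symm x).1 + E * w) = f w := by
      intro w
      rw [hf]
      simp only
      congr 1
      rw [Equiv.prod_comp finProdFinEquiv.symm (fun y : Fin k × Fin (R + 1) => ∏ᶠ P ∈ PA (p y.2),
        GP (C γ * (e * h)) 1 P (Z' y.1 + E * w)), Fintype.prod_prod_type]
      refine Finset.prod_congr rfl fun i _ => ?_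
      rw [PA_split hh.ne_zero hsqh hpp]
    simp only [h1] at hwb
    rw [window_finsum, ← hqdef] at hwb
    have hfin := fin_num (k := R + 1) (r := R + 1) (n := n) (L := L2) hq1 le_rfl hκ₂0 hA1
      (abs_nonneg _) ?_ ?_ (hm1 n (by omega)) hc hwb
    · refine hfin.trans (le_of_eq ?_)
      rw [sub_eq_add_neg, Real.rpow_add hq0, Real.rpow_natCast, ← hqdef]
    · -- the bound for `T`
      have h1 : L2 / 4 + 1 ≤ (6 * (R + 1) + 3) * (L2 / 4 / (6 * (R + 1) + 3) + 1) :=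
        Nat.lt_mul_div_succ _ (by omega)
      have h2 : L2 ≤ 4 * (L2 / 4 + 1) := by omega
      have h3 : (L2 : ℝ) ≤ 4 * ((6 * ((R + 1 : ℕ) : ℝ) + 3) *
          (((L2 / 4 / (6 * (R + 1) + 3) : ℕ) : ℝ) + 1)) := by
        have h4 : L2 ≤ 4 * ((6 * (R + 1) + 3) * (L2 / 4 / (6 * (R + 1) + 3) + 1)) :=
          h2.trans (Nat.mul_le_mul_left 4 h1)
        exact_mod_cast h4
      rw [hκ₂, div_mul_eq_mul_div, div_le_iff₀ (by positivity)]
      have h5 : lam * n ≤ 8 / 7 * L2 := by linarith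
      have h6 : (0 : ℝ) ≤ L2 := Nat.cast_nonneg _
      linarith
    · -- the number of primes
      have hη1 : (1 : ℝ) ≤ q ^ (κ₂ / 2 / ((R + 1 : ℕ) : ℝ)) := Real.one_le_rpow hq1.le (by positivity)
      calc M ^ (∑ l, (PA (p l)).ncard) = ∏ l, M ^ (PA (p l)).ncard := by
            rw [Finset.prod_pow_eq_pow_sum]
        _ ≤ ∏ _l : Fin (R + 1), (A * (q ^ (κ₂ / 2 / ((R + 1 : ℕ) : ℝ))) ^ n) := by
            apply Finset.prod_le_prod
            · intro l _
              have : 0 ≤ M := by linarith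
              positivity
            · intro l _
              refine hA (p l) (hpm l).ne_zero n ?_
              have h1 := natDegree_le_of_dvd (hpdvd l) hh.ne_zero
              omega
        _ = (A * (q ^ (κ₂ / 2 / ((R + 1 : ℕ) : ℝ))) ^ n) ^ (R + 1) := by
            rw [Finset.prod_const, Finset.card_univ, Fintype.card_fin]
        _ = A ^ (R + 1) * (q ^ (κ₂ / 2)) ^ n := by
            rw [mul_pow, ← pow_mul, mul_comm n (R + 1), pow_mul,
              ← Real.rpow_natCast (q ^ (κ₂ / 2 / ((R + 1 : ℕ) : ℝ))) (R + 1), ← Real.rpow_mul hq0.le,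
              div_mul_cancel₀ _ hr0.ne']
  · intro j
    have h1 : p j ∣ s := (hpdvd j).trans hhs
    refine ⟨?_, ?_, ?_, ?_, ?_, ?_, ?_⟩
    · rw [hh']
      simp only
      split_ifs
      · exact monic_one
      · exact hpm j
    · rw [hh'']
      simp only
      split_ifs
      · exact hpm j
      · exact monic_one
    · rw [hmul]
      exact hsqh.squarefree_of_dvd (hpdvd j)
    · rw [hmul]
      exact hEh.of_isCoprime_of_dvd_right (hpdvd j)
    · rw [hh']
      simp only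
      split_ifs
      · rw [natDegree_one]
        omega
      · exact hpd j
    · rw [hh'']
      simp only
      split_ifs
      · exact hpd j
      · rw [natDegree_one]
        omega
    · rintro P ⟨hPm, hPi, hPd⟩
      rw [hmul] at hPd
      rw [← hse, derivative_C_mul]
      intro h2
      have h3 : P ∣ derivative s := by
        have h4 : derivative s = C γ⁻¹ * (C γ * derivative s) := by
          rw [← mul_assoc, ← C_mul, inv_mul_cancel₀ hγ, C_1, one_mul]
        rw [h4]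
        exact h2.mul_left _
      exact not_dvd_der hsq hPi (hPd.trans h1) h3
  · intro i j hij
    rw [hmul, hmul]
    exact pair_cop hsqh hpp i j hij
  · intro x y hxy hcc
    have hne : (finProdFinEquiv.symm x).1 ≠ (finProdFinEquiv.symm y).1 := by
      intro h1
      exact hxy (finProdFinEquiv.symm.injective (Prod.ext h1 hcc))
    have h1 : Z' (finProdFinEquiv.symm x).1 - Z' (finProdFinEquiv.symm y).1 =
        τ (finProdFinEquiv.symm x).1 - τ (finProdFinEquiv.symm y).1 := by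
      rw [hZ']
      ring
    rw [h1]
    have h2 : h'' (finProdFinEquiv.symm x).2 ∣ h := by
      refine dvd_trans ?_ (hpdvd (finProdFinEquiv.symm x).2)
      rw [← hmul]
      exact dvd_mul_left _ _
    have h3 : τ (finProdFinEquiv.symm x).1 - τ (finProdFinEquiv.symm y).1 ∣ Δ := by
      rw [hΔ]
      exact dvd_Dlt τ hne
    apply cop_of
    · rintro ⟨h4, -⟩
      exact sub_ne_zero.2 (fun h5 => hne (hτi h5)) h4
    · intro P hPm hPi hP1 hP2
      exact hhD P hPi (hP2.trans h2) ((hP1.trans h3).mul_left _)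
  · rw [hh'']
    simp only [if_true]
    exact hp0
  · rw [mul_comm]
    exact Nat.div_mul_le_self _ _

end Pool.Agent.H560.SK
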