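import Mathlib
import Pool.Agent.H560.SK.StmK

/-!
# SK, task WBS: the window bound for all subsets of the forms (helper560)
-/

set_option autoImplicit false

namespace Pool.Agent.H560.SK

open Polynomial
open scoped Classical
open Pool.Agent.H985.Chow (mob)
open Pool.Agent.H560.SI (Smt)

/-- the window bound with given constants -/
def Bd (K : Type) [Field K] [Fintype K] (lam κ c : ℝ) (n₀ k : ℕ) : Prop :=
  ∀ n : ℕ, n₀ ≤ n → ∀ (d L L' : ℕ) (γ : K) (s F D : K[X])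
    (τ : Fin k → K[X]), L ≤ s.natDegree + 1 → s.natDegree < d → 2 * s.natDegree ≤ n →
    lam * n ≤ (L : ℝ) → γ ≠ 0 → s.Monic → Squarefree s → Smt (L / 8) s → F.Monic →
    F.natDegree = 2 * d → derivative F = (C γ * s) ^ 2 → D.Monic → (D.natDegree : ℝ) ≤ κ * n →
    D.natDegree + L' = L → Function.Injective τ → (∀ i, ((τ i).natDegree : ℝ) ≤ κ * n) →
    |∑ᶠ v ∈ {v : K[X] | v.degree < (L' : WithBot ℕ)},
      ∏ i, (mob (F + τ i ^ 2 + (D * v) ^ 2) : ℝ)| ≤ (Fintype.card K : ℝ) ^ ((L : ℝ) - c * n)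

lemma Bd_mono (K : Type) [Field K] [Fintype K] {lam κ c κ' c' : ℝ} {n₀ n₀' k : ℕ}
    (h : Bd K lam κ c n₀ k) (hκ : κ' ≤ κ) (hc : c' ≤ c) (hn : n₀ ≤ n₀') : Bd K lam κ' c' n₀' k := by
  have hq1 : (1 : ℝ) ≤ Fintype.card K := by exact_mod_cast Fintype.one_lt_card.le
  intro n hn' d L L' γ s F D τ h1 h2 h3 h4 h5 h6 h7 h8 h9 h10 h11 h12 h13 h14 h15 h16
  have hn0 : (0 : ℝ) ≤ n := Nat.cast_nonneg n
  have e1 : κ' * (n : ℝ) ≤ κ * n := mul_le_mul_of_nonneg_right hκ hn0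
  refine (h n (hn.trans hn') d L L' γ s F D τ h1 h2 h3 h4 h5 h6 h7 h8 h9 h10 h11 h12
    (h13.trans e1) h14 h15 fun i => (h16 i).trans e1).trans ?_
  apply Real.rpow_le_rpow_of_exponent_le hq1
  have e2 : c' * (n : ℝ) ≤ c * n := mul_le_mul_of_nonneg_right hc hn0
  linarith

/-- **Task WBS.** -/
theorem wbS (hU : S_wbU) : S_wbS := by
  intro K _ _ _ k lam hlam
  have key : ∀ m : ℕ, ∃ κ c : ℝ, 0 < κ ∧ 0 < c ∧ ∃ n₀ : ℕ, ∀ j : ℕ, 1 ≤ j → j ≤ m →
      Bd K lam κ c n₀ j := by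
    intro m
    induction m with
    | zero => exact ⟨1, 1, one_pos, one_pos, 0, fun j h1 h2 => by omega⟩
    | succ m ih =>
      obtain ⟨κ1, c1, hκ1, hc1, n1, H1⟩ := ih
      obtain ⟨κ2, c2, hκ2, hc2, n2, H2⟩ := hU K (m + 1) lam (by omega) hlam
      refine ⟨min κ1 κ2, min c1 c2, lt_min hκ1 hκ2, lt_min hc1 hc2, max n1 n2, ?_⟩
      intro j hj1 hj2
      rcases Nat.lt_or_ge m j with h3 | h3
      · have h4 : j = m + 1 := by omega
        subst h4
        have h5 : Bd K lam κ2 c2 n2 (m + 1) := H2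
        exact Bd_mono K h5 (min_le_right _ _) (min_le_right _ _) (le_max_right _ _)
      · exact Bd_mono K (H1 j hj1 h3) (min_le_left _ _) (min_le_left _ _) (le_max_left _ _)
  obtain ⟨κ, c, hκ, hc, n₀, H⟩ := key k
  refine ⟨κ, c, hκ, hc, n₀, ?_⟩
  intro n hn d L L' γ s F D τ I h1 h2 h3 h4 h5 h6 h7 h8 h9 h10 h11 h12 h13 h14 h15 h16 hI
  have hc1 : 1 ≤ I.card := Finset.card_pos.2 hI
  have hc2 : I.card ≤ k := by
    have := Finset.card_le_univ I
    rwa [Fintype.card_fin] at this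
  have h17 := H I.card hc1 hc2 n hn d L L' γ s F D (fun x => τ (I.equivFin.symm x : Fin k)) h1 h2 h3
    h4 h5 h6 h7 h8 h9 h10 h11 h12 h13 h14 (fun x y hxy => by
      have h18 := h15 hxy
      exact I.equivFin.symm.injective (Subtype.ext h18)) (fun i => h16 _)
  refine le_trans (le_of_eq ?_) h17
  congr 1
  refine finsum_mem_congr rfl fun v _ => ?_
  rw [← Finset.prod_coe_sort I (fun i => (mob (F + τ i ^ 2 + (D * v) ^ 2) : ℝ))]
  exact (Equiv.prod_comp I.equivFin.symm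
    (fun i : I => (mob (F + τ (i : Fin k) ^ 2 + (D * v) ^ 2) : ℝ))).symm

end Pool.Agent.H560.SK
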