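import Mathlib
import Pool.Agent.H560.SQ.Final
import Pool.Agent.H560.SK.WbU
import Pool.Agent.H560.SK.WbS
import Pool.Agent.H560.SK.WbO
import Pool.Agent.H560.SK.T2KS
import Pool.Agent.H560.SK.T2KO
import Pool.Agent.H23.SK.T2HS
import Pool.Agent.H92.SK.WinS

/-!
# Tuples with square differences, `q` even: the theorems (helper560)
-/

set_option autoImplicit false

namespace Pool.Agent.H560.SK

open Polynomial
open scoped Classical
open Pool.Agent.H985.Chow (mob)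
open Pool.Agent.H985.Par (Sft)
open Pool.Agent.H560.SI (Itv mob_one_iff mob_neg_one_iff sft_iff ncard_itv itv_coe)
open Pool.Agent.H560.SQ (s_winI)
open Pool.Agent.H249.SI (dq dq_sq dq_dec)
open Pool.Agent.H903.SQ (monic_root)

theorem s_t2HS : S_t2HS :=
  Pool.Agent.H23.SK.t2HS (Pool.Agent.H92.SK.winS Pool.Agent.H348.AR.rtQ Pool.Agent.H985.Par.s_sw)

theorem s_t2KS : S_t2KS :=
  t2KS (wbS (wbU Pool.Agent.H297.SI.grp s_winI Pool.Agent.H985.FC.win4s)) s_t2HS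
    (Pool.Agent.H385.SI.smA Pool.Agent.H553.SI.prdA)

theorem s_t2KO : S_t2KO :=
  t2KO (wbOS (wbO Pool.Agent.H297.SI.grp Pool.Agent.H985.FC.winFs Pool.Agent.H985.FC.win4s)) s_t2HS
    (Pool.Agent.H385.SI.smA Pool.Agent.H553.SI.prdA)

/-- The `f` with `deg (f - g) < h` such that all `f + τ i ^ 2` are squarefree, have no irreducible
factor of degree at most `y`, and have an odd number of irreducible factors exactly for `i ∈ S`. -/
def Tup {K : Type} [Field K] {k : ℕ} (g : K[X]) (h : ℕ) (y : ℝ) (τ : Fin k → K[X])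
    (S : Set (Fin k)) : Set K[X] :=
  {f : K[X] | (f - g).degree < (h : WithBot ℕ) ∧ ∀ i, Squarefree (f + τ i ^ 2) ∧
    (∀ P : K[X], Irreducible P → P ∣ f + τ i ^ 2 → y < (P.natDegree : ℝ)) ∧
    (Odd (Multiset.card (UniqueFactorizationMonoid.factors (f + τ i ^ 2))) ↔ i ∈ S)}

/-- For every irreducible `P` some `x` is such that `P` divides no `x + τ i ^ 2`. -/
def Admis {K : Type} [Field K] {k : ℕ} (τ : Fin k → K[X]) : Prop :=
  ∀ P : K[X], Irreducible P → ∃ x : K[X], ∀ i, ¬ P ∣ x + τ i ^ 2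

lemma adm_of {K : Type} [Field K] [Fintype K] [CharP K 2] {k : ℕ} {τ : Fin k → K[X]}
    (h : Admis τ) : Adm τ := by
  intro P hPm hPi
  obtain ⟨x, hx⟩ := h P hPi
  obtain ⟨r, -, hr⟩ := Pool.Agent.H348.AR.rtQ K 1 x P hPm hPi (fun h1 => hPi.not_isUnit (isUnit_of_dvd_one h1))
  have h1 : P ∣ x + 1 * r ^ 2 := (hr r).2 (by rw [sub_self]; exact dvd_zero _)
  rw [one_mul] at h1
  refine ⟨r, fun i hi => hx i ?_⟩
  have h2 : P ∣ (r + τ i) ^ 2 := dvd_pow hi two_ne_zero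
  rw [CharTwo.add_sq] at h2
  have h3 : x + τ i ^ 2 = (x + r ^ 2) + (r ^ 2 + τ i ^ 2) := by
    have h4 : (2 : K[X]) = 0 := CharTwo.two_eq_zero
    linear_combination (- r ^ 2) * h4
  rw [h3]
  exact dvd_add h1 h2

lemma one_iff {K : Type} [Field K] {f : K[X]} {y : ℝ} (hy : 0 ≤ y) (p : Prop) :
    (mob f = (if p then -1 else 1) ∧ Sft ⌊y⌋₊ f) ↔ (Squarefree f ∧
      (∀ P : K[X], Irreducible P → P ∣ f → y < (P.natDegree : ℝ)) ∧
      (Odd (Multiset.card (UniqueFactorizationMonoid.factors f)) ↔ p)) := by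
  have h1 : Sft ⌊y⌋₊ f ↔ ∀ P : K[X], Irreducible P → P ∣ f → y < (P.natDegree : ℝ) := by
    rw [sft_iff]
    exact forall_congr' fun P => imp_congr_right fun _ => imp_congr_right fun _ => Nat.floor_lt hy
  rw [h1]
  by_cases hp : p
  · rw [if_pos hp, mob_neg_one_iff]
    constructor
    · rintro ⟨⟨h2, h3⟩, h4⟩
      exact ⟨h2, h4, fun _ => hp, fun _ => h3⟩
    · rintro ⟨h2, h4, h3⟩
      exact ⟨⟨h2, h3.2 hp⟩, h4⟩
  · rw [if_neg hp, mob_one_iff]
    constructor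
    · rintro ⟨⟨h2, h3⟩, h4⟩
      exact ⟨h2, h4, fun h5 => absurd h5 (Nat.not_odd_iff_even.2 h3), fun h5 => absurd h5 hp⟩
    · rintro ⟨h2, h4, h3⟩
      exact ⟨⟨h2, Nat.not_odd_iff_even.1 fun h5 => hp (h3.1 h5)⟩, h4⟩

lemma tup_card {K : Type} [Field K] [Fintype K] {k : ℕ} {n h : ℕ} (hn : h ≤ n) {g : K[X]}
    (hg : g.Monic) (hgn : g.natDegree = n) {y : ℝ} (hy : 0 ≤ y) (τ : Fin k → K[X])
    (S : Set (Fin k)) :
    (Tup g h y τ S).ncard = ((Itv K n h g).filter (fun f => ∀ i, mob (f + τ i ^ 2) =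
      (if i ∈ S then -1 else 1) ∧ Sft ⌊y⌋₊ (f + τ i ^ 2))).card := by
  have h1 := ncard_itv hn hg hgn (fun f => ∀ i, mob (f + τ i ^ 2) =
      (if i ∈ S then -1 else 1) ∧ Sft ⌊y⌋₊ (f + τ i ^ 2))
  rw [← h1]
  unfold Tup
  congr 1
  ext f
  simp only [Set.mem_ofPred_eq, one_iff hy]

lemma tup_mono {K : Type} [Field K] [Fintype K] {k : ℕ} {g : K[X]} {h : ℕ} {y y' : ℝ}
    (τ : Fin k → K[X]) (S : Set (Fin k)) (hy : y ≤ y') (n : ℕ) (hn : h ≤ n) (hg : g.Monic)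
    (hgn : g.natDegree = n) : (Tup g h y' τ S).ncard ≤ (Tup g h y τ S).ncard := by
  apply Set.ncard_le_ncard
  · rintro f ⟨h1, h2⟩
    exact ⟨h1, fun i => ⟨(h2 i).1, fun P hP hPd => hy.trans_lt ((h2 i).2.1 P hP hPd), (h2 i).2.2⟩⟩
  · refine ((Itv K n h g).finite_toSet).subset ?_
    rintro f ⟨h1, -⟩
    rw [itv_coe hn hg hgn]
    exact h1

/-- **Tuples in all intervals near squares.** -/
theorem near (K : Type) [Field K] [Fintype K] [CharP K 2] (k : ℕ) (ε : ℝ) (hε : 0 < ε) :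
    ∃ κ c : ℝ, 0 < κ ∧ 0 < c ∧ ∃ h₀ : ℕ, ∀ h : ℕ, h₀ ≤ h → ∀ A R : K[X], A.Monic →
      h ≤ 2 * A.natDegree → R.degree < ((2 * A.natDegree : ℕ) : WithBot ℕ) →
      (R.natDegree : ℝ) ≤ (2 - ε) * h → ∀ (τ : Fin k → K[X]) (S : Set (Fin k)),
      Function.Injective τ → (∀ i, ((τ i).natDegree : ℝ) ≤ κ * h) → Admis τ →
        c * (Fintype.card K : ℝ) ^ h / (h : ℝ) ^ k ≤ (Tup (A ^ 2 + R) h (κ * h) τ S).ncard := by
  obtain ⟨κ, c, hκ, hc, h₀, hh₀⟩ := s_t2KS K k ε hε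
  refine ⟨κ, c, hκ, hc, h₀, fun h hh A R hA hhA hR hRh τ S hτi hτd hadm => ?_⟩
  have hA2 : (A ^ 2).Monic := hA.pow 2
  have hA2d : (A ^ 2).natDegree = 2 * A.natDegree := by rw [natDegree_pow]
  have hRA : R.degree < (A ^ 2).degree := by
    rw [degree_eq_natDegree hA2.ne_zero, hA2d]
    exact hR
  have hFm : (A ^ 2 + R).Monic := hA2.add_of_left hRA
  have hFd : (A ^ 2 + R).natDegree = 2 * A.natDegree := by
    rw [natDegree_add_eq_left_of_degree_lt hRA, hA2d]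
  have h1 := hh₀ h hh A R τ (fun i => if i ∈ S then -1 else 1) hA hhA hR hRh hτi hτd (adm_of hadm)
    (fun i => by
      by_cases hi : i ∈ S
      · right
        exact if_pos hi
      · left
        exact if_neg hi)
  rw [tup_card hhA hFm hFd (by positivity) τ S]
  exact h1

/-- **Tuples in all intervals of exponent `> 1 / 2`.** -/
theorem all_int (K : Type) [Field K] [Fintype K] [CharP K 2] (k : ℕ) (θ : ℝ) (hθ : 1 / 2 < θ) :
    ∃ κ c : ℝ, 0 < κ ∧ 0 < c ∧ ∃ n₀ : ℕ, ∀ n : ℕ, n₀ ≤ n → ∀ h : ℕ, θ * n ≤ (h : ℝ) → h ≤ n →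
      ∀ g : K[X], g.Monic → g.natDegree = n → ∀ (τ : Fin k → K[X]) (S : Set (Fin k)),
      Function.Injective τ → (∀ i, ((τ i).natDegree : ℝ) ≤ κ * n) → Admis τ →
        c * (Fintype.card K : ℝ) ^ h / (n : ℝ) ^ k ≤ (Tup g h (κ * n) τ S).ncard := by
  have hθ0 : 0 < θ := by linarith
  obtain ⟨ε, hε⟩ : ∃ ε : ℝ, ε = 2 - 1 / θ := ⟨_, rfl⟩
  have hε0 : 0 < ε := by
    rw [hε]
    have : 1 / θ < 2 := by
      rw [div_lt_iff₀ hθ0]
      linarith
    linarith
  obtain ⟨κ1, c1, hκ1, hc1, h₀, H1⟩ := near K k ε hε0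
  obtain ⟨κ2, c2, hκ2, hc2, n₀, H2⟩ := s_t2KO K k θ hθ
  refine ⟨min (κ1 / 2) κ2, min c1 c2, by positivity, by positivity, 2 * h₀ + n₀ + 1, ?_⟩
  intro n hn h hθh hhn g hg hgn τ S hτi hτd hadm
  have hn0 : (0 : ℝ) < n := by exact_mod_cast (by omega : 0 < n)
  have hnh : (n : ℝ) ≤ 2 * h := by nlinarith
  have hnh' : n ≤ 2 * h := by exact_mod_cast hnh
  have hq0 : (0 : ℝ) < Fintype.card K := by exact_mod_cast Fintype.card_pos
  have hh0 : (0 : ℝ) < h := by exact_mod_cast (by omega : 0 < h)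
  have hhnr : (h : ℝ) ≤ n := by exact_mod_cast hhn
  rcases Nat.even_or_odd n with ⟨d, hd⟩ | ⟨N, hN⟩
  · have hd2 : n = 2 * d := by omega
    obtain ⟨B, hB⟩ : ∃ B, B = dq g := ⟨_, rfl⟩
    obtain ⟨Z, hZ⟩ := dq_dec g
    rw [← hB] at hZ
    have hBg : B ^ 2 = derivative g := by rw [hB, dq_sq]
    have hrd : (X * B ^ 2).degree < ((2 * d : ℕ) : WithBot ℕ) := by
      by_cases hB0 : B = 0
      · rw [hB0, zero_pow two_ne_zero, mul_zero, degree_zero]
        exact WithBot.bot_lt_coe _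
      · have h1 : 2 * B.natDegree ≤ n - 1 := by
          have h2 : 2 * B.natDegree = (derivative g).natDegree := by rw [← hBg, natDegree_pow]
          rw [h2]
          have h3 := natDegree_derivative_le g
          rwa [hgn] at h3
        have h2 : X * B ^ 2 ≠ 0 := mul_ne_zero X_ne_zero (pow_ne_zero 2 hB0)
        rw [← natDegree_lt_iff_degree_lt h2, natDegree_X_mul (pow_ne_zero 2 hB0), natDegree_pow]
        omega
    obtain ⟨hZm, hZd⟩ := monic_root rfl hg (by rw [hgn, hd2]) hrd hZ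
    have hRn : ((X * B ^ 2).natDegree : ℝ) ≤ (2 - ε) * h := by
      have h1 : (X * B ^ 2).natDegree ≤ n := by
        rw [hd2]
        exact natDegree_le_of_degree_le hrd.le
      have h2 : ((X * B ^ 2).natDegree : ℝ) ≤ n := by exact_mod_cast h1
      refine h2.trans ?_
      have h3 : (2 - ε) = 1 / θ := by rw [hε]; ring
      rw [h3, div_mul_eq_mul_div, one_mul, le_div_iff₀ hθ0]
      linarith
    have hkn : min (κ1 / 2) κ2 * (n : ℝ) ≤ κ1 * h := by
      have h1 : min (κ1 / 2) κ2 * (n : ℝ) ≤ κ1 / 2 * n :=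
        mul_le_mul_of_nonneg_right (min_le_left _ _) hn0.le
      have h2 : κ1 / 2 * (n : ℝ) ≤ κ1 / 2 * (2 * h) := mul_le_mul_of_nonneg_left hnh (by positivity)
      linarith
    have h1 := H1 h (by omega) Z (X * B ^ 2) hZm (by rw [hZd]; omega) (by rw [hZd]; exact hrd) hRn τ S
      hτi (fun i => (hτd i).trans hkn) hadm
    rw [← hZ] at h1
    have h2 := tup_mono τ S hkn n hhn hg hgn
    have h3 : ((Tup g h (κ1 * h) τ S).ncard : ℝ) ≤ (Tup g h (min (κ1 / 2) κ2 * n) τ S).ncard := by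
      exact_mod_cast h2
    refine le_trans ?_ (h1.trans h3)
    have h4 : (h : ℝ) ^ k ≤ (n : ℝ) ^ k := pow_le_pow_left₀ hh0.le hhnr k
    have h5 : min c1 c2 * (Fintype.card K : ℝ) ^ h ≤ c1 * (Fintype.card K : ℝ) ^ h :=
      mul_le_mul_of_nonneg_right (min_le_left _ _) (by positivity)
    exact div_le_div₀ (by positivity) h5 (by positivity) h4
  · have hkn : min (κ1 / 2) κ2 * (n : ℝ) ≤ κ2 * n :=
      mul_le_mul_of_nonneg_right (min_le_right _ _) hn0.le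
    have h1 := H2 n N h (by omega) hN hθh hhn g τ (fun i => if i ∈ S then -1 else 1) hg hgn hτi
      (fun i => (hτd i).trans hkn) (adm_of hadm) (fun i => by
      by_cases hi : i ∈ S
      · right
        exact if_pos hi
      · left
        exact if_neg hi)
    have h6 := tup_card hhn hg hgn (y := κ2 * n) (by positivity) τ S
    have h7 : ((Tup g h (κ2 * n) τ S).ncard : ℝ) = ((Itv K n h g).filter (fun f => ∀ i,
      mob (f + τ i ^ 2) = (if i ∈ S then -1 else 1) ∧ Sft ⌊κ2 * n⌋₊ (f + τ i ^ 2))).card := by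
      exact_mod_cast h6
    rw [← h7] at h1
    have h2 := tup_mono τ S hkn n hhn hg hgn
    have h3 : ((Tup g h (κ2 * n) τ S).ncard : ℝ) ≤ (Tup g h (min (κ1 / 2) κ2 * n) τ S).ncard := by
      exact_mod_cast h2
    refine le_trans ?_ (h1.trans h3)
    apply div_le_div_of_nonneg_right _ (by positivity)
    exact mul_le_mul_of_nonneg_right (min_le_right _ _) (by positivity)

end Pool.Agent.H560.SK
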